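import Mathlib

set_option autoImplicit false

/-!
Exponential sums of finite sets at rational frequencies: mean square over the frequencies `i / q`.
-/

namespace Pool.Agent.Helper5.ETA

open Finset

/-- the additive character `e(t)` -/
noncomputable def ex (t : ℝ) : ℂ := Complex.exp (2 * Real.pi * t * Complex.I)

theorem ex_zero : ex 0 = 1 := by simp [ex]

theorem ex_add (s t : ℝ) : ex (s + t) = ex s * ex t := by
  unfold ex
  rw [← Complex.exp_add]
  congr 1
  push_cast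
  ring

theorem ex_nat_mul (n : ℕ) (t : ℝ) : ex (n * t) = ex t ^ n := by
  unfold ex
  rw [← Complex.exp_nat_mul]
  congr 1
  push_cast
  ring

theorem ex_eq_one_iff (t : ℝ) : ex t = 1 ↔ ∃ n : ℤ, t = n := by
  unfold ex
  rw [Complex.exp_eq_one_iff]
  have hne : (2 * Real.pi * Complex.I : ℂ) ≠ 0 := Complex.two_pi_I_ne_zero
  constructor
  · rintro ⟨n, hn⟩
    refine ⟨n, ?_⟩
    have h1 : (t : ℂ) * (2 * Real.pi * Complex.I) = n * (2 * Real.pi * Complex.I) := by
      rw [← hn]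
      ring
    have h2 := mul_right_cancel₀ hne h1
    exact_mod_cast h2
  · rintro ⟨n, rfl⟩
    exact ⟨n, by push_cast; ring⟩

theorem ex_conj (t : ℝ) : (starRingEnd ℂ) (ex t) = ex (-t) := by
  unfold ex
  rw [← Complex.exp_conj]
  congr 1
  rw [map_mul, map_mul, map_mul, Complex.conj_I, Complex.conj_ofReal, Complex.conj_ofReal]
  have : (starRingEnd ℂ) 2 = 2 := by
    have h := Complex.conj_ofReal 2
    simpa using h
  rw [this]
  push_cast
  ring

/-- orthogonality -/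
theorem orth {q : ℕ} (hq : 0 < q) (n : ℤ) :
    ∑ i ∈ range q, ex ((i : ℝ) / q * n) = if (q : ℤ) ∣ n then (q : ℂ) else 0 := by
  have hq0 : (q : ℝ) ≠ 0 := by positivity
  have h1 : ∀ i : ℕ, ex ((i : ℝ) / q * n) = ex ((n : ℝ) / q) ^ i := by
    intro i
    rw [← ex_nat_mul]
    congr 1
    ring
  simp only [h1]
  by_cases hd : (q : ℤ) ∣ n
  · rw [if_pos hd]
    obtain ⟨k, rfl⟩ := hd
    have h2 : ex (((q * k : ℤ) : ℝ) / q) = 1 := by
      rw [ex_eq_one_iff]
      refine ⟨k, ?_⟩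
      push_cast
      field_simp
    rw [h2]
    simp
  · rw [if_neg hd]
    have h2 : ex ((n : ℝ) / q) ≠ 1 := by
      rw [Ne, ex_eq_one_iff]
      rintro ⟨k, hk⟩
      apply hd
      refine ⟨k, ?_⟩
      have h3 : (n : ℝ) = q * k := by
        rw [← hk]
        field_simp
      exact_mod_cast h3
    have h4 : ex ((n : ℝ) / q) ^ q = 1 := by
      rw [← ex_nat_mul, ex_eq_one_iff]
      exact ⟨n, by field_simp⟩
    have h5 := geom_sum_eq h2 q
    rw [h5, h4, sub_self, zero_div]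

variable {ι : Type*}

/-- exponential sum -/
noncomputable def S (B : Finset ι) (w : ι → ℕ) (α : ℚ) : ℂ := ∑ p ∈ B, ex ((α : ℝ) * w p)

theorem mass {q : ℕ} (hq : 0 < q) (B : Finset ι) (w : ι → ℕ) :
    ∑ i ∈ range q, ‖S B w ((i : ℚ) / q)‖ ^ 2
      = q * (((B ×ˢ B).filter (fun p => w p.1 % q = w p.2 % q)).card : ℝ) := by
  have key : (((∑ i ∈ range q, ‖S B w ((i : ℚ) / q)‖ ^ 2 : ℝ)) : ℂ)
      = ((q * (((B ×ˢ B).filter (fun p => w p.1 % q = w p.2 % q)).card : ℝ) : ℝ) : ℂ) := by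
    push_cast
    have h1 : ∀ i ∈ range q, ((‖S B w ((i : ℚ) / q)‖ : ℂ)) ^ 2
        = ∑ p ∈ B ×ˢ B, ex ((i : ℝ) / q * ((w p.1 : ℤ) - (w p.2 : ℤ) : ℤ)) := by
      intro i _
      rw [← Complex.mul_conj']
      unfold S
      rw [map_sum, Finset.sum_mul_sum, ← Finset.sum_product']
      refine Finset.sum_congr rfl (fun p _ => ?_)
      rw [ex_conj, ← ex_add]
      congr 1
      push_cast
      ring
    rw [Finset.sum_congr rfl h1, Finset.sum_comm]
    have h2 : ∀ p ∈ B ×ˢ B, ∑ i ∈ range q, ex ((i : ℝ) / q * ((w p.1 : ℤ) - (w p.2 : ℤ) : ℤ))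
        = if w p.1 % q = w p.2 % q then (q : ℂ) else 0 := by
      intro p _
      rw [orth hq]
      congr 1
      rw [eq_iff_iff]
      constructor
      · intro h
        have := (Nat.modEq_iff_dvd (a := w p.2) (b := w p.1) (n := q)).2 h
        exact this.symm
      · intro h
        exact (Nat.modEq_iff_dvd (a := w p.2) (b := w p.1) (n := q)).1 h.symm
    rw [Finset.sum_congr rfl h2, ← Finset.sum_filter, Finset.sum_const, nsmul_eq_mul]
    ring
  exact_mod_cast key

/-- the frequencies `i / q` -/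
def G (q : ℕ) : Finset ℚ := (range q).image (fun i : ℕ => (i : ℚ) / q)

theorem sum_G {q : ℕ} (hq : 0 < q) (F : ℚ → ℝ) :
    ∑ α ∈ G q, F α = ∑ i ∈ range q, F ((i : ℚ) / q) := by
  unfold G
  rw [Finset.sum_image]
  intro i _ j _ h
  have hq0 : (q : ℚ) ≠ 0 := by positivity
  have h2 : (i : ℚ) / q = (j : ℚ) / q := h
  rw [div_left_inj' hq0] at h2
  exact_mod_cast h2

theorem card_G_le (q : ℕ) : (G q).card ≤ q := by
  unfold G
  exact card_image_le.trans (by simp)

theorem G_mono {q L : ℕ} (hL : 0 < L) (h : q ∣ L) : G q ⊆ G L := by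
  obtain ⟨k, rfl⟩ := h
  intro α hα
  unfold G at hα ⊢
  rw [mem_image] at hα ⊢
  obtain ⟨i, hi, rfl⟩ := hα
  have hk : 0 < k := Nat.pos_of_mul_pos_left hL |> fun _ => by
    rcases Nat.eq_zero_or_pos k with h0 | h0
    · rw [h0, mul_zero] at hL
      exact absurd hL (lt_irrefl 0)
    · exact h0
  have hq : 0 < q := by
    rcases Nat.eq_zero_or_pos q with h0 | h0
    · rw [h0, zero_mul] at hL
      exact absurd hL (lt_irrefl 0)
    · exact h0
  refine ⟨i * k, ?_, ?_⟩
  · rw [mem_range] at hi ⊢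
    exact Nat.mul_lt_mul_of_pos_right hi hk
  · push_cast
    have h1 : (k : ℚ) ≠ 0 := by positivity
    have h2 : (q : ℚ) ≠ 0 := by positivity
    field_simp

theorem S_sq (B : Finset ℕ) (α : ℚ) :
    S (B ×ˢ B) (fun p => p.1 + p.2) α = S B (fun a => a) α ^ 2 := by
  unfold S
  rw [sq, Finset.sum_mul_sum, ← Finset.sum_product']
  refine Finset.sum_congr rfl (fun p _ => ?_)
  rw [← ex_add]
  congr 1
  push_cast
  ring

/-- congruent pairs: Cauchy-Schwarz -/
theorem coll_ge (B : Finset ℕ) (q : ℕ) :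
    (B.card : ℝ) ^ 2 ≤ ((B.image (fun a => a % q)).card : ℝ) *
      (((B ×ˢ B).filter (fun p => p.1 % q = p.2 % q)).card : ℝ) := by
  classical
  have h1 : B.card = ∑ s ∈ B.image (fun a => a % q), (B.filter (fun a => a % q = s)).card :=
    card_eq_sum_card_image _ _
  have h2 : ((B ×ˢ B).filter (fun p => p.1 % q = p.2 % q)).card
      = ∑ s ∈ B.image (fun a => a % q), (B.filter (fun a => a % q = s)).card ^ 2 := by
    rw [card_eq_sum_card_fiberwise (f := fun p : ℕ × ℕ => p.1 % q)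
      (t := B.image (fun a => a % q))]
    · refine Finset.sum_congr rfl (fun s _ => ?_)
      rw [sq, ← card_product]
      congr 1
      ext p
      simp only [mem_filter, mem_product]
      constructor
      · rintro ⟨⟨⟨h1, h2⟩, h3⟩, h4⟩
        exact ⟨⟨h1, h4⟩, ⟨h2, h3.symm.trans h4⟩⟩
      · rintro ⟨⟨h1, h4⟩, ⟨h2, h5⟩⟩
        exact ⟨⟨⟨h1, h2⟩, h4.trans h5.symm⟩, h4⟩
    · intro p hp
      rw [mem_coe, mem_filter, mem_product] at hp
      exact mem_coe.2 (mem_image_of_mem _ hp.1.1)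
  rw [h2]
  have h3 := sq_sum_le_card_mul_sum_sq (s := B.image (fun a => a % q))
    (f := fun s => ((B.filter (fun a => a % q = s)).card : ℝ))
  have h4 : (B.card : ℝ) = ∑ s ∈ B.image (fun a => a % q),
      ((B.filter (fun a => a % q = s)).card : ℝ) := by
    exact_mod_cast h1
  rw [h4]
  push_cast
  exact h3

/-- few pairs with sum in a residue class -/
theorem quad_le {B : Finset ℕ} {R x L : ℕ} (hB : ∀ a ∈ B, a < x) (hL : 0 < L) (hLx : L ≤ x)
    (hR : ∀ n, ((B ×ˢ B).filter (fun p => p.1 + p.2 = n)).card ≤ R) (t : ℕ) :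
    L * ((B ×ˢ B).filter (fun p => (p.1 + p.2) % L = t % L)).card ≤ 3 * R * x := by
  classical
  have h1 : ((B ×ˢ B).filter (fun p => (p.1 + p.2) % L = t % L)).card
      ≤ (2 * x / L + 1) * R := by
    have h2 : ((B ×ˢ B).filter (fun p => (p.1 + p.2) % L = t % L)).card
        = ∑ k ∈ range (2 * x / L + 1), (((B ×ˢ B).filter
          (fun p => (p.1 + p.2) % L = t % L)).filter (fun p => (p.1 + p.2) / L = k)).card := by
      refine card_eq_sum_card_fiberwise (f := fun p : ℕ × ℕ => (p.1 + p.2) / L) ?_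
      intro p hp
      rw [mem_coe, mem_filter, mem_product] at hp
      have h3 := hB _ hp.1.1
      have h4 := hB _ hp.1.2
      rw [mem_coe, mem_range, Nat.lt_succ_iff]
      exact Nat.div_le_div_right (by omega)
    rw [h2]
    calc _ ≤ ∑ k ∈ range (2 * x / L + 1), R := by
          refine Finset.sum_le_sum (fun k _ => ?_)
          refine le_trans (card_le_card ?_) (hR (L * k + t % L))
          intro p hp
          rw [mem_filter, mem_filter] at hp
          rw [mem_filter]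
          refine ⟨hp.1.1, ?_⟩
          rw [← hp.2, ← hp.1.2]
          exact (Nat.div_add_mod _ _).symm
      _ = (2 * x / L + 1) * R := by
          rw [Finset.sum_const, card_range, smul_eq_mul]
  calc L * ((B ×ˢ B).filter (fun p => (p.1 + p.2) % L = t % L)).card
      ≤ L * ((2 * x / L + 1) * R) := Nat.mul_le_mul_left _ h1
    _ = (L * (2 * x / L) + L) * R := by ring
    _ ≤ (2 * x + x) * R := by
        refine Nat.mul_le_mul_right _ (Nat.add_le_add (Nat.mul_div_le _ _) hLx)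
    _ = 3 * R * x := by ring

/-- the energy bound -/
theorem energy {B : Finset ℕ} {R x L : ℕ} (hB : ∀ a ∈ B, a < x) (hL : 0 < L) (hLx : L ≤ x)
    (hR : ∀ n, ((B ×ˢ B).filter (fun p => p.1 + p.2 = n)).card ≤ R) :
    ∑ α ∈ G L, ‖S B (fun a => a) α‖ ^ 4 ≤ 3 * R * x * (B.card : ℝ) ^ 2 := by
  classical
  have h1 : ∀ α : ℚ, ‖S B (fun a => a) α‖ ^ 4
      = ‖S (B ×ˢ B) (fun p => p.1 + p.2) α‖ ^ 2 := by
    intro α
    rw [S_sq, norm_pow]
    ring
  simp only [h1]
  rw [sum_G hL, mass hL]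
  have h2 : (((B ×ˢ B) ×ˢ (B ×ˢ B)).filter
      (fun p : (ℕ × ℕ) × (ℕ × ℕ) => (p.1.1 + p.1.2) % L = (p.2.1 + p.2.2) % L)).card
      = ∑ p ∈ B ×ˢ B, ((B ×ˢ B).filter (fun p' => (p'.1 + p'.2) % L = (p.1 + p.2) % L)).card := by
    rw [card_filter, Finset.sum_product]
    refine Finset.sum_congr rfl (fun p _ => ?_)
    rw [card_filter]
    refine Finset.sum_congr rfl (fun p' _ => ?_)
    congr 1
    rw [eq_iff_iff]
    exact ⟨fun h => h.symm, fun h => h.symm⟩
  have h3 : L * (((B ×ˢ B) ×ˢ (B ×ˢ B)).filter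
      (fun p : (ℕ × ℕ) × (ℕ × ℕ) => (p.1.1 + p.1.2) % L = (p.2.1 + p.2.2) % L)).card
      ≤ B.card ^ 2 * (3 * R * x) := by
    rw [h2, Finset.mul_sum]
    calc _ ≤ ∑ p ∈ B ×ˢ B, 3 * R * x :=
          Finset.sum_le_sum (fun p _ => quad_le hB hL hLx hR _)
      _ = B.card ^ 2 * (3 * R * x) := by
          rw [Finset.sum_const, card_product, smul_eq_mul, sq]
  have h4 : (L : ℝ) * ((((B ×ˢ B) ×ˢ (B ×ˢ B)).filter
      (fun p : (ℕ × ℕ) × (ℕ × ℕ) => (p.1.1 + p.1.2) % L = (p.2.1 + p.2.2) % L)).card : ℝ)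
      ≤ (B.card : ℝ) ^ 2 * (3 * R * x) := by exact_mod_cast h3
  calc _ ≤ (B.card : ℝ) ^ 2 * (3 * R * x) := h4
    _ = 3 * R * x * (B.card : ℝ) ^ 2 := by ring

end Pool.Agent.Helper5.ETA
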