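import Mathlib

set_option autoImplicit false

/-!
Sets with bounded representation function have additive structure at few scales only: a Bessel
inequality for the difference function.
-/

namespace Pool.Agent.Helper5.ETM

open Finset Pointwise

/-- number of pairs of elements of `S` with difference `d` -/
def dif (S : Finset ℕ) (d : ℤ) : ℕ :=
  ((S ×ˢ S).filter (fun p => (p.1 : ℤ) - (p.2 : ℤ) = d)).card

theorem dif_le (S : Finset ℕ) (d : ℤ) : dif S d ≤ S.card := by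
  classical
  unfold dif
  refine card_le_card_of_injOn (fun p => p.1) ?_ ?_
  · intro p hp
    rw [mem_coe, mem_filter, mem_product] at hp
    exact hp.1.1
  · intro p hp p' hp' h
    rw [mem_coe, mem_filter, mem_product] at hp hp'
    have h1 : p.1 = p'.1 := h
    have h2 := hp.2
    have h3 := hp'.2
    rw [h1] at h2
    have h4 : p.2 = p'.2 := by omega
    exact Prod.ext h1 h4

theorem sum_dif_le (S : Finset ℕ) (Δ : Finset ℤ) : ∑ d ∈ Δ, dif S d ≤ S.card ^ 2 := by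
  classical
  unfold dif
  rw [sum_card_fiberwise_eq_card_filter]
  refine (card_filter_le _ _).trans ?_
  rw [card_product, sq]

/-- the energy of a set with bounded representation function -/
theorem energy {B : Finset ℕ} {R : ℕ}
    (hR : ∀ n, ((B ×ˢ B).filter (fun p => p.1 + p.2 = n)).card ≤ R) (Δ : Finset ℤ) :
    ∑ d ∈ Δ, dif B d ^ 2 ≤ R * B.card ^ 2 := by
  classical
  have h1 : ∑ d ∈ Δ, dif B d ^ 2 ≤ (((B ×ˢ B) ×ˢ (B ×ˢ B)).filter
      (fun q : (ℕ × ℕ) × (ℕ × ℕ) => (q.1.1 : ℤ) - q.1.2 = (q.2.1 : ℤ) - q.2.2)).card := by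
    have h2 : ∀ d ∈ Δ, dif B d ^ 2 = (((((B ×ˢ B) ×ˢ (B ×ˢ B)).filter
        (fun q : (ℕ × ℕ) × (ℕ × ℕ) => (q.1.1 : ℤ) - q.1.2 = (q.2.1 : ℤ) - q.2.2))).filter
        (fun q => (q.1.1 : ℤ) - q.1.2 = d)).card := by
      intro d _
      unfold dif
      rw [sq, ← card_product]
      congr 1
      ext q
      simp only [mem_filter, mem_product]
      constructor
      · rintro ⟨⟨⟨h1, h2⟩, h3⟩, ⟨⟨h4, h5⟩, h6⟩⟩
        exact ⟨⟨⟨⟨h1, h2⟩, ⟨h4, h5⟩⟩, h3.trans h6.symm⟩, h3⟩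
      · rintro ⟨⟨⟨⟨h1, h2⟩, ⟨h4, h5⟩⟩, h3⟩, h6⟩
        exact ⟨⟨⟨h1, h2⟩, h6⟩, ⟨⟨h4, h5⟩, h3.symm.trans h6⟩⟩
    rw [sum_congr rfl h2, sum_card_fiberwise_eq_card_filter]
    exact card_filter_le _ _
  refine h1.trans ?_
  have h3 := card_le_mul_card_image_of_maps_to (s := ((B ×ˢ B) ×ˢ (B ×ˢ B)).filter
    (fun q : (ℕ × ℕ) × (ℕ × ℕ) => (q.1.1 : ℤ) - q.1.2 = (q.2.1 : ℤ) - q.2.2)) (t := B ×ˢ B)
    (f := fun q => (q.1.2, q.2.1)) ?_ R ?_
  · rw [card_product] at h3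
    rw [sq]
    exact h3
  · intro q hq
    rw [mem_filter, mem_product, mem_product, mem_product] at hq
    exact mem_product.2 ⟨hq.1.1.2, hq.1.2.1⟩
  · rintro ⟨b, c⟩ _
    refine le_trans (card_le_card_of_injOn (fun q => (q.1.1, q.2.2)) ?_ ?_) (hR (b + c))
    · intro q hq
      rw [mem_coe, mem_filter, mem_filter, mem_product, mem_product, mem_product,
        Prod.mk.injEq] at hq
      obtain ⟨⟨⟨⟨h1, h2⟩, ⟨h4, h5⟩⟩, h3⟩, h6, h7⟩ := hq
      rw [mem_coe, mem_filter, mem_product]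
      refine ⟨⟨h1, h5⟩, ?_⟩
      simp only
      omega
    · intro q hq q' hq' h
      rw [mem_coe, mem_filter, Prod.mk.injEq] at hq hq'
      obtain ⟨⟨q1, q2⟩, ⟨q3, q4⟩⟩ := q
      obtain ⟨⟨q1', q2'⟩, ⟨q3', q4'⟩⟩ := q'
      simp only [Prod.mk.injEq] at h hq hq' ⊢
      exact ⟨⟨h.1, hq.2.1.trans hq'.2.1.symm⟩, ⟨hq.2.2.trans hq'.2.2.symm, h.2⟩⟩

/-- the set of all differences -/
def Dl (B : Finset ℕ) : Finset ℤ := (B ×ˢ B).image (fun p => (p.1 : ℤ) - (p.2 : ℤ))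

theorem addEnergy_le (B S : Finset ℕ) :
    B.addEnergy S ≤ ∑ d ∈ Dl B, dif S d * dif B d := by
  classical
  have h1 : B.addEnergy S = ∑ d ∈ Dl B, ((((B ×ˢ B) ×ˢ S ×ˢ S).filter
      (fun x : (ℕ × ℕ) × ℕ × ℕ => x.1.1 + x.2.1 = x.1.2 + x.2.2)).filter
      (fun x => (x.1.1 : ℤ) - (x.1.2 : ℤ) = d)).card := by
    rw [sum_card_fiberwise_eq_card_filter]
    unfold Finset.addEnergy
    congr 1
    ext x
    simp only [mem_filter, mem_product]
    constructor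
    · intro h
      refine ⟨h, ?_⟩
      unfold Dl
      exact mem_image.2 ⟨x.1, mem_product.2 h.1.1, rfl⟩
    · intro h
      exact h.1
  rw [h1]
  refine sum_le_sum (fun d _ => ?_)
  unfold dif
  rw [mul_comm, ← card_product]
  refine card_le_card_of_injOn (fun x => (x.1, (x.2.2, x.2.1))) ?_ ?_
  · intro x hx
    rw [mem_coe, mem_filter, mem_filter, mem_product, mem_product, mem_product] at hx
    obtain ⟨⟨⟨⟨h1, h2⟩, ⟨h3, h4⟩⟩, h5⟩, h6⟩ := hx
    rw [mem_coe, mem_product, mem_filter, mem_filter, mem_product, mem_product]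
    refine ⟨⟨⟨h1, h2⟩, h6⟩, ⟨⟨h4, h3⟩, ?_⟩⟩
    simp only
    omega
  · intro x _ x' _ h
    obtain ⟨x1, x2, x3⟩ := x
    obtain ⟨x1', x2', x3'⟩ := x'
    simp only [Prod.mk.injEq] at h ⊢
    exact ⟨h.1, h.2.2, h.2.1⟩

/-- normalised difference function -/
noncomputable def w (S : Finset ℕ) (d : ℤ) : ℝ :=
  (dif S d : ℝ) / ((S.card : ℝ) * Real.sqrt S.card)

theorem w_nonneg (S : Finset ℕ) (d : ℤ) : 0 ≤ w S d := by
  unfold w
  positivity

/-- the scales are almost orthogonal -/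
theorem w_inner {S T : Finset ℕ} (hS : S.Nonempty) (hT : T.Nonempty) {t : ℝ} (ht : 0 ≤ t)
    (hst : (T.card : ℝ) ≤ t ^ 2 * S.card) (Δ : Finset ℤ) :
    ∑ d ∈ Δ, w S d * w T d ≤ t := by
  have hs : (0 : ℝ) < S.card := by exact_mod_cast hS.card_pos
  have hT' : (0 : ℝ) < T.card := by exact_mod_cast hT.card_pos
  have hss : 0 < Real.sqrt (S.card : ℝ) := Real.sqrt_pos.2 hs
  have htt : 0 < Real.sqrt (T.card : ℝ) := Real.sqrt_pos.2 hT'
  have h1 : ∑ d ∈ Δ, w S d * w T d ≤ ∑ d ∈ Δ, ((1 : ℝ) / Real.sqrt S.card *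
      ((dif T d : ℝ) / ((T.card : ℝ) * Real.sqrt T.card))) := by
    refine sum_le_sum (fun d _ => ?_)
    refine mul_le_mul_of_nonneg_right ?_ (w_nonneg T d)
    unfold w
    have h2 : (dif S d : ℝ) ≤ S.card := by exact_mod_cast dif_le S d
    rw [div_le_div_iff₀ (by positivity) hss]
    nlinarith
  refine h1.trans ?_
  rw [← mul_sum, ← sum_div]
  have h3 : (∑ d ∈ Δ, (dif T d : ℝ)) ≤ (T.card : ℝ) ^ 2 := by
    exact_mod_cast sum_dif_le T Δ
  have h4 : (∑ d ∈ Δ, (dif T d : ℝ)) / ((T.card : ℝ) * Real.sqrt T.card) ≤ Real.sqrt T.card := by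
    rw [div_le_iff₀ (by positivity)]
    have h5 : Real.sqrt (T.card : ℝ) * Real.sqrt (T.card : ℝ) = T.card :=
      Real.mul_self_sqrt hT'.le
    calc (∑ d ∈ Δ, (dif T d : ℝ)) ≤ (T.card : ℝ) ^ 2 := h3
      _ = T.card * (Real.sqrt T.card * Real.sqrt T.card) := by rw [h5, sq]
      _ = Real.sqrt T.card * (T.card * Real.sqrt T.card) := by ring
  have h6 : Real.sqrt (T.card : ℝ) ≤ t * Real.sqrt S.card := by
    rw [show t * Real.sqrt (S.card : ℝ) = Real.sqrt (t ^ 2 * S.card) by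
      rw [Real.sqrt_mul (by positivity), Real.sqrt_sq ht]]
    exact Real.sqrt_le_sqrt hst
  calc 1 / Real.sqrt (S.card : ℝ) * ((∑ d ∈ Δ, (dif T d : ℝ)) / ((T.card : ℝ) * Real.sqrt T.card))
      ≤ 1 / Real.sqrt (S.card : ℝ) * (t * Real.sqrt S.card) :=
        mul_le_mul_of_nonneg_left (h4.trans h6) (by positivity)
    _ = t := by field_simp

/-- correlation of a scale with the set -/
theorem w_corr {B S : Finset ℕ} (hB : B.Nonempty) (hS : S.Nonempty) {C x : ℝ} (hC : 0 < C)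
    (hx : 0 < x) (h : ((B + S).card : ℝ) ≤ C * Real.sqrt (x * S.card)) :
    (B.card : ℝ) ^ 2 / (C * Real.sqrt x) ≤ ∑ d ∈ Dl B, w S d * (dif B d : ℝ) := by
  classical
  have hs : (0 : ℝ) < S.card := by exact_mod_cast hS.card_pos
  have hb : (0 : ℝ) < B.card := by exact_mod_cast hB.card_pos
  have hss : 0 < Real.sqrt (S.card : ℝ) := Real.sqrt_pos.2 hs
  have hxx : 0 < Real.sqrt x := Real.sqrt_pos.2 hx
  have h1 : (B.card : ℝ) ^ 2 * (S.card : ℝ) ^ 2 ≤ ((B + S).card : ℝ) * (B.addEnergy S : ℝ) := by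
    exact_mod_cast le_card_add_mul_addEnergy B S
  have h2 : (B.addEnergy S : ℝ) ≤ ∑ d ∈ Dl B, (dif S d : ℝ) * (dif B d : ℝ) := by
    exact_mod_cast addEnergy_le B S
  have h3 : ∑ d ∈ Dl B, w S d * (dif B d : ℝ)
      = (∑ d ∈ Dl B, (dif S d : ℝ) * (dif B d : ℝ)) / ((S.card : ℝ) * Real.sqrt S.card) := by
    rw [sum_div]
    refine sum_congr rfl (fun d _ => ?_)
    unfold w
    ring
  rw [h3]
  set E : ℝ := ∑ d ∈ Dl B, (dif S d : ℝ) * (dif B d : ℝ) with hE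
  have hE0 : 0 ≤ E := sum_nonneg (fun d _ => by positivity)
  have h4 : (B.card : ℝ) ^ 2 * (S.card : ℝ) ^ 2 ≤ C * Real.sqrt (x * S.card) * E :=
    calc (B.card : ℝ) ^ 2 * (S.card : ℝ) ^ 2 ≤ ((B + S).card : ℝ) * (B.addEnergy S : ℝ) := h1
      _ ≤ ((B + S).card : ℝ) * E := mul_le_mul_of_nonneg_left h2 (by positivity)
      _ ≤ C * Real.sqrt (x * S.card) * E := mul_le_mul_of_nonneg_right h hE0
  rw [Real.sqrt_mul hx.le] at h4
  rw [div_le_div_iff₀ (by positivity) (by positivity)]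
  have h5 : Real.sqrt (S.card : ℝ) * Real.sqrt (S.card : ℝ) = S.card := Real.mul_self_sqrt hs.le
  have h6 : (B.card : ℝ) ^ 2 * ((S.card : ℝ) * Real.sqrt S.card) * Real.sqrt S.card
      ≤ E * (C * Real.sqrt x) * Real.sqrt S.card := by
    calc (B.card : ℝ) ^ 2 * ((S.card : ℝ) * Real.sqrt S.card) * Real.sqrt S.card
        = (B.card : ℝ) ^ 2 * ((S.card : ℝ) * (Real.sqrt S.card * Real.sqrt S.card)) := by ring
      _ = (B.card : ℝ) ^ 2 * (S.card : ℝ) ^ 2 := by rw [h5]; ring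
      _ ≤ C * (Real.sqrt x * Real.sqrt S.card) * E := h4
      _ = E * (C * Real.sqrt x) * Real.sqrt S.card := by ring
  exact le_of_mul_le_mul_right h6 hss

/-- the sum of the first `K` scales -/
noncomputable def Gs (S : ℕ → Finset ℕ) (K : ℕ) (d : ℤ) : ℝ := ∑ i ∈ range K, w (S i) d

theorem card_scale {S : ℕ → Finset ℕ} {K : ℕ}
    (hS : ∀ i, i + 1 < K → 16 * (S (i + 1)).card ≤ (S i).card) (i n : ℕ) (h : i + n < K) :
    ((S (i + n)).card : ℝ) ≤ ((1 / 4 : ℝ) ^ n) ^ 2 * (S i).card := by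
  induction n with
  | zero => simp
  | succ n ih =>
    have h1 := ih (by omega)
    have h2 : (16 : ℝ) * ((S (i + n + 1)).card : ℝ) ≤ ((S (i + n)).card : ℝ) := by
      exact_mod_cast hS (i + n) (by omega)
    have h3 : ((1 / 4 : ℝ) ^ (n + 1)) ^ 2 = (1 / 16) * ((1 / 4 : ℝ) ^ n) ^ 2 := by
      rw [pow_succ]
      ring
    rw [h3, ← add_assoc]
    linarith

theorem geo_sum (K : ℕ) : ∑ i ∈ range K, (1 / 4 : ℝ) ^ (K - i) ≤ 1 / 2 := by
  induction K with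
  | zero => simp
  | succ K ih =>
    rw [sum_range_succ]
    have h1 : ∑ i ∈ range K, (1 / 4 : ℝ) ^ (K + 1 - i)
        = (1 / 4) * ∑ i ∈ range K, (1 / 4 : ℝ) ^ (K - i) := by
      rw [mul_sum]
      refine sum_congr rfl (fun i hi => ?_)
      rw [mem_range] at hi
      rw [show K + 1 - i = (K - i) + 1 by omega, pow_succ]
      ring
    rw [h1, show K + 1 - K = 1 by omega]
    linarith

/-- Bessel inequality: the norm of the sum of the scales -/
theorem Gs_norm {S : ℕ → Finset ℕ} {N : ℕ} (hne : ∀ i, i < N → (S i).Nonempty)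
    (hS : ∀ i, i + 1 < N → 16 * (S (i + 1)).card ≤ (S i).card) (Δ : Finset ℤ) (K : ℕ)
    (hK : K ≤ N) : ∑ d ∈ Δ, Gs S K d ^ 2 ≤ 2 * K := by
  induction K with
  | zero => simp [Gs]
  | succ K ih =>
    have h1 := ih (by omega)
    have h2 : ∀ d, Gs S (K + 1) d ^ 2
        = Gs S K d ^ 2 + 2 * (∑ i ∈ range K, w (S i) d * w (S K) d) + w (S K) d * w (S K) d := by
      intro d
      unfold Gs
      rw [sum_range_succ, ← sum_mul]
      ring
    simp only [h2]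
    rw [sum_add_distrib, sum_add_distrib, ← mul_sum, sum_comm]
    have h3 : ∑ i ∈ range K, ∑ d ∈ Δ, w (S i) d * w (S K) d
        ≤ ∑ i ∈ range K, (1 / 4 : ℝ) ^ (K - i) := by
      refine sum_le_sum (fun i hi => ?_)
      rw [mem_range] at hi
      refine w_inner (hne i (by omega)) (hne K (by omega)) (by positivity) ?_ Δ
      have := card_scale hS i (K - i) (by omega)
      rwa [show i + (K - i) = K by omega] at this
    have h4 : ∑ d ∈ Δ, w (S K) d * w (S K) d ≤ 1 :=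
      w_inner (hne K (by omega)) (hne K (by omega)) zero_le_one (by simp) Δ
    have h5 := geo_sum K
    push_cast
    linarith

/-- A set `B` with `|B + S i| ≤ C sqrt (x |S i|)` for `K` separated scales has a representation
function of order `K |B|^2 / x` somewhere. -/
theorem multiscale {B : Finset ℕ} {R : ℕ}
    (hR : ∀ n, ((B ×ˢ B).filter (fun p => p.1 + p.2 = n)).card ≤ R) {S : ℕ → Finset ℕ} {K : ℕ}
    (hne : ∀ i, i < K → (S i).Nonempty)
    (hS : ∀ i, i + 1 < K → 16 * (S (i + 1)).card ≤ (S i).card) {C x : ℝ} (hC : 0 < C) (hx : 0 < x)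
    (h : ∀ i, i < K → ((B + S i).card : ℝ) ≤ C * Real.sqrt (x * (S i).card)) :
    (K : ℝ) * (B.card : ℝ) ^ 2 ≤ 2 * C ^ 2 * x * R := by
  classical
  rcases B.eq_empty_or_nonempty with hB | hB
  · subst hB
    simp only [card_empty, Nat.cast_zero]
    have : (0 : ℝ) ≤ 2 * C ^ 2 * x * R := by positivity
    nlinarith
  rcases Nat.eq_zero_or_pos K with hK | hK
  · subst hK
    simp only [Nat.cast_zero, zero_mul]
    positivity
  have hb : (0 : ℝ) < B.card := by exact_mod_cast hB.card_pos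
  have hK' : (0 : ℝ) < K := by exact_mod_cast hK
  have hxx : 0 < Real.sqrt x := Real.sqrt_pos.2 hx
  have h1 : (K : ℝ) * ((B.card : ℝ) ^ 2 / (C * Real.sqrt x))
      ≤ ∑ d ∈ Dl B, Gs S K d * (dif B d : ℝ) := by
    have h2 : ∑ d ∈ Dl B, Gs S K d * (dif B d : ℝ)
        = ∑ i ∈ range K, ∑ d ∈ Dl B, w (S i) d * (dif B d : ℝ) := by
      unfold Gs
      rw [sum_comm]
      refine sum_congr rfl (fun d _ => ?_)
      rw [sum_mul]
    rw [h2]
    calc (K : ℝ) * ((B.card : ℝ) ^ 2 / (C * Real.sqrt x))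
        = ∑ i ∈ range K, ((B.card : ℝ) ^ 2 / (C * Real.sqrt x)) := by
          rw [sum_const, card_range, nsmul_eq_mul]
      _ ≤ _ := by
          refine sum_le_sum (fun i hi => ?_)
          rw [mem_range] at hi
          exact w_corr hB (hne i hi) hC hx (h i hi)
  have h3 : (∑ d ∈ Dl B, Gs S K d * (dif B d : ℝ)) ^ 2
      ≤ (∑ d ∈ Dl B, Gs S K d ^ 2) * ∑ d ∈ Dl B, (dif B d : ℝ) ^ 2 :=
    sum_mul_sq_le_sq_mul_sq _ _ _
  have h4 : ∑ d ∈ Dl B, Gs S K d ^ 2 ≤ 2 * K := Gs_norm hne hS (Dl B) K le_rfl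
  have h5 : ∑ d ∈ Dl B, (dif B d : ℝ) ^ 2 ≤ R * (B.card : ℝ) ^ 2 := by
    exact_mod_cast energy hR (Dl B)
  have h6 : ((K : ℝ) * ((B.card : ℝ) ^ 2 / (C * Real.sqrt x))) ^ 2
      ≤ (2 * K) * (R * (B.card : ℝ) ^ 2) := by
    calc ((K : ℝ) * ((B.card : ℝ) ^ 2 / (C * Real.sqrt x))) ^ 2
        ≤ (∑ d ∈ Dl B, Gs S K d * (dif B d : ℝ)) ^ 2 := by
          exact pow_le_pow_left₀ (by positivity) h1 2
      _ ≤ (∑ d ∈ Dl B, Gs S K d ^ 2) * ∑ d ∈ Dl B, (dif B d : ℝ) ^ 2 := h3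
      _ ≤ (2 * K) * (R * (B.card : ℝ) ^ 2) := by
          refine mul_le_mul h4 h5 (sum_nonneg (fun d _ => by positivity)) (by positivity)
  have h7 : ((K : ℝ) * ((B.card : ℝ) ^ 2 / (C * Real.sqrt x))) ^ 2
      = (K : ℝ) * (B.card : ℝ) ^ 2 * ((K : ℝ) * (B.card : ℝ) ^ 2) / (C ^ 2 * x) := by
    have h8 : Real.sqrt x ^ 2 = x := Real.sq_sqrt hx.le
    rw [mul_pow, div_pow, mul_pow C, h8]
    ring
  rw [h7, div_le_iff₀ (by positivity)] at h6
  have h9 : (K : ℝ) * (B.card : ℝ) ^ 2 * ((K : ℝ) * (B.card : ℝ) ^ 2)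
      ≤ (2 * C ^ 2 * x * R) * ((K : ℝ) * (B.card : ℝ) ^ 2) := by
    calc _ ≤ 2 * (K : ℝ) * (R * (B.card : ℝ) ^ 2) * (C ^ 2 * x) := h6
      _ = (2 * C ^ 2 * x * R) * ((K : ℝ) * (B.card : ℝ) ^ 2) := by ring
  exact le_of_mul_le_mul_right h9 (by positivity)

end Pool.Agent.Helper5.ETM
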