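import Mathlib
import Pool.Agent.Helper5.ETA.Multi
import Pool.Agent.Helper3.ETP3.Basic

set_option autoImplicit false

/-!
E-T (MP_12a1af_nt), affirmative side: sets with additive structure at many scales are thin.
-/

namespace Pool.Agent.Helper5.ETM

open Finset Filter Pointwise
open Pool.Agent.Helper3.ETP3 (rep Bdd Small Thin cut mem_cut card_cut cut_rep)

/-- the elements of `D` in the interval `[δ x, x)` -/
def seg (D : Set ℕ) (δ : ℝ) (x : ℕ) : Set ℕ := {a | a ∈ D ∧ δ * x ≤ a ∧ a < x}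

/-- `D` has additive structure at arbitrarily many scales: for every `δ > 0` there is `C` such that
for every `K` and all large `x` there are `K` nonempty finite sets `S 0`, ..., `S (K - 1)`, each at
least 16 times larger than the next one, with `|(D ∩ [δ x, x)) + S i| ≤ C √(x |S i|)`. -/
def Scales (D : Set ℕ) : Prop :=
  ∀ δ : ℝ, 0 < δ → ∃ C : ℝ, ∀ K : ℕ, ∀ᶠ x : ℕ in atTop, ∃ S : ℕ → Finset ℕ,
    (∀ i, i < K → (S i).Nonempty) ∧ (∀ i, i + 1 < K → 16 * (S (i + 1)).card ≤ (S i).card) ∧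
    ∀ i, i < K → ((seg D δ x + (S i : Set ℕ)).ncard : ℝ) ≤ C * √((x : ℝ) * (S i).card)

/-- the number of boxes (interval of length `x / m`) × (residue class modulo `q`) which are met by
the elements of `D` in `[δ x, x)` -/
noncomputable def boxes (D : Set ℕ) (δ : ℝ) (x m q : ℕ) : ℕ :=
  ((fun a => (m * a / x, a % q)) '' seg D δ x).ncard

/-- `D` meets few boxes: for every `δ > 0` there is `C` such that for arbitrarily large products
`m q` and all large `x` the elements of `D` in `[δ x, x)` meet at most `C √(m q)` of the `m q`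
boxes (interval of length `x / m`) × (residue class modulo `q`). -/
def FewBoxes (D : Set ℕ) : Prop :=
  ∀ δ : ℝ, 0 < δ → ∃ C : ℝ, ∀ T : ℕ, ∃ m q : ℕ, T ≤ m * q ∧
    ∀ᶠ x : ℕ in atTop, (boxes D δ x m q : ℝ) ≤ C * √((m * q : ℕ) : ℝ)

/-- the trivial bound -/
theorem cut_sq_le {A : Set ℕ} {R : ℕ} (hR : ∀ n, rep A n ≤ R) (y : ℕ) :
    (cut A y).card ^ 2 ≤ 2 * y * R := by
  classical
  have h1 : (cut A y ×ˢ cut A y).card ≤ R * (range (2 * y)).card := by
    refine card_le_mul_card_image_of_maps_to (f := fun p : ℕ × ℕ => p.1 + p.2) ?_ R ?_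
    · intro p hp
      rw [mem_product, mem_cut, mem_cut] at hp
      rw [mem_range]
      omega
    · intro n _
      exact cut_rep hR y n
  rw [card_product, card_range, ← sq] at h1
  calc (cut A y).card ^ 2 ≤ R * (2 * y) := h1
    _ = 2 * y * R := by ring

/-- **Kind 5.** Sets with additive structure at arbitrarily many scales are thin. -/
theorem thin_of_scales {D : Set ℕ} (h : Scales D) : Thin D := by
  classical
  intro A hA hb κ hκ
  obtain ⟨R, hR⟩ := hb
  set δ : ℝ := κ ^ 2 / (16 * (R + 1)) with hδ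
  have hδ0 : 0 < δ := by positivity
  obtain ⟨C, hC⟩ := h δ hδ0
  set C' : ℝ := max C 1 with hC'
  have hC'0 : 0 < C' := lt_max_of_lt_right one_pos
  set K : ℕ := ⌈8 * C' ^ 2 * R / κ ^ 2⌉₊ + 1 with hK
  filter_upwards [hC K, eventually_gt_atTop 0, eventually_ge_atTop (⌈16 * R / κ ^ 2⌉₊)]
    with x hx hx0 hx1
  obtain ⟨S, hne, hS, hcard⟩ := hx
  by_contra hcon
  rw [not_le] at hcon
  have hxr : (0 : ℝ) < x := by exact_mod_cast hx0
  have hsx : 0 < √(x : ℝ) := Real.sqrt_pos.2 hxr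
  -- the part of `A` in `[δ x, x)`
  set B : Finset ℕ := (cut A x).filter (fun a => δ * x ≤ (a : ℝ)) with hB
  have hsplit : (cut A x).card ≤ B.card + (cut A ⌈δ * x⌉₊).card := by
    have h1 : cut A x ⊆ B ∪ cut A ⌈δ * x⌉₊ := by
      intro a ha
      rw [mem_union]
      by_cases h2 : δ * x ≤ (a : ℝ)
      · exact Or.inl (mem_filter.2 ⟨ha, h2⟩)
      · refine Or.inr (mem_cut.2 ⟨(mem_cut.1 ha).1, ?_⟩)
        rw [not_le] at h2
        exact Nat.lt_ceil.2 h2
    exact (card_le_card h1).trans (card_union_le _ _)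
  have hlow : ((cut A ⌈δ * x⌉₊).card : ℝ) ≤ κ / 2 * √(x : ℝ) := by
    have h1 : ((cut A ⌈δ * x⌉₊).card : ℝ) ^ 2 ≤ 2 * (⌈δ * x⌉₊ : ℝ) * R := by
      exact_mod_cast cut_sq_le hR _
    have h2 : (⌈δ * x⌉₊ : ℝ) ≤ δ * x + 1 := (Nat.ceil_lt_add_one (by positivity)).le
    have h3 : 2 * (⌈δ * x⌉₊ : ℝ) * R ≤ (κ / 2 * √(x : ℝ)) ^ 2 := by
      have h4 : (κ / 2 * √(x : ℝ)) ^ 2 = κ ^ 2 * x / 4 := by
        rw [mul_pow, Real.sq_sqrt hxr.le]
        ring
      rw [h4]
      have h5 : 2 * (⌈δ * x⌉₊ : ℝ) * R ≤ 2 * (δ * x + 1) * R := by gcongr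
      have h6 : 2 * (δ * x) * R ≤ κ ^ 2 * x / 8 := by
        have h7 : δ * R ≤ κ ^ 2 / 16 := by
          rw [hδ, div_mul_eq_mul_div, div_le_div_iff₀ (by positivity) (by norm_num)]
          nlinarith [sq_nonneg κ]
        calc 2 * (δ * x) * R = 2 * (δ * R) * x := by ring
          _ ≤ 2 * (κ ^ 2 / 16) * x := by gcongr
          _ = κ ^ 2 * x / 8 := by ring
      have h7 : 2 * (R : ℝ) ≤ κ ^ 2 * x / 8 := by
        have h8 : (16 : ℝ) * R / κ ^ 2 ≤ x := (Nat.le_ceil _).trans (by exact_mod_cast hx1)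
        rw [div_le_iff₀ (by positivity)] at h8
        linarith
      linarith
    have h4 := h1.trans h3
    exact abs_le_of_sq_le_sq' h4 (by positivity) |>.2
  have hBcard : κ / 2 * √(x : ℝ) ≤ (B.card : ℝ) := by
    have h1 : ((cut A x).card : ℝ) ≤ (B.card : ℝ) + ((cut A ⌈δ * x⌉₊).card : ℝ) := by
      exact_mod_cast hsplit
    rw [← card_cut] at hcon
    linarith
  have hBR : ∀ n, ((B ×ˢ B).filter (fun p => p.1 + p.2 = n)).card ≤ R := by
    intro n
    refine le_trans (card_le_card ?_) (cut_rep hR x n)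
    exact filter_subset_filter _ (product_subset_product (filter_subset _ _) (filter_subset _ _))
  have hseg : (B : Set ℕ) ⊆ seg D δ x := by
    intro a ha
    rw [mem_coe, hB, mem_filter, mem_cut] at ha
    exact ⟨hA ha.1.1, ha.2, ha.1.2⟩
  have hsegfin : (seg D δ x).Finite :=
    (Set.finite_Iio x).subset (fun a ha => ha.2.2)
  have hcard' : ∀ i, i < K → ((B + S i).card : ℝ) ≤ C' * √((x : ℝ) * (S i).card) := by
    intro i hi
    have h1 : (B + S i).card ≤ (seg D δ x + (S i : Set ℕ)).ncard := by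
      rw [← Set.ncard_coe_finset, coe_add]
      exact Set.ncard_le_ncard (Set.add_subset_add_right hseg)
        (hsegfin.add (S i).finite_toSet)
    calc ((B + S i).card : ℝ) ≤ ((seg D δ x + (S i : Set ℕ)).ncard : ℝ) := by exact_mod_cast h1
      _ ≤ C * √((x : ℝ) * (S i).card) := hcard i hi
      _ ≤ C' * √((x : ℝ) * (S i).card) := by
        gcongr
        exact le_max_left _ _
  have hmain := multiscale hBR hne hS hC'0 hxr hcard'
  have h1 : κ ^ 2 / 4 * x ≤ (B.card : ℝ) ^ 2 := by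
    have h2 : κ ^ 2 / 4 * x = (κ / 2 * √(x : ℝ)) ^ 2 := by
      rw [mul_pow, Real.sq_sqrt hxr.le]
      ring
    rw [h2]
    exact pow_le_pow_left₀ (by positivity) hBcard 2
  have h2 : (K : ℝ) * (κ ^ 2 / 4 * x) ≤ 2 * C' ^ 2 * x * R := by
    refine le_trans ?_ hmain
    gcongr
  have h3 : (8 * C' ^ 2 * R / κ ^ 2) < K := by
    rw [hK]
    push_cast
    have := Nat.le_ceil (8 * C' ^ 2 * R / κ ^ 2)
    linarith
  rw [div_lt_iff₀ (by positivity)] at h3
  have h4 : (K : ℝ) * (κ ^ 2 / 4 * x) * 4 ≤ (8 * C' ^ 2 * R) * x := by linarith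
  have h5 : (8 * C' ^ 2 * R) * x < (K * κ ^ 2) * x := by gcongr
  linarith

end Pool.Agent.Helper5.ETM
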