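import Mathlib
import Pool.Agent.Helper5.ETA.Scales

set_option autoImplicit false

/-!
E-T (MP_12a1af_nt), affirmative side: sets which meet few boxes have additive structure at many
scales, so they are thin.
-/

namespace Pool.Agent.Helper5.ETM

open Finset Filter Pointwise
open Pool.Agent.Helper3.ETP3 (rep Bdd Small Thin cut mem_cut card_cut cut_rep)

/-- the multiples of `q` which are smaller than `x / m` -/
def prog (x m q : ℕ) : Finset ℕ := (range (x / (m * q))).image (fun j => q * j)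

theorem card_prog {x m q : ℕ} (hq : 0 < q) : (prog x m q).card = x / (m * q) := by
  unfold prog
  rw [card_image_of_injective _ (fun a b h => Nat.eq_of_mul_eq_mul_left hq h), card_range]

/-- the numbers in a box -/
def boxF (x m q k r : ℕ) : Finset ℕ :=
  (range (3 * x)).filter (fun n => n % q = r ∧ k * x ≤ m * n ∧ m * n < (k + 2) * x)

theorem card_boxF {x m q : ℕ} (hm : 0 < m) (hq : 0 < q) (k r : ℕ) :
    (boxF x m q k r).card ≤ 2 * x / (m * q) + 2 := by
  have h1 : (boxF x m q k r).card ≤ (Icc (k * x / (m * q)) ((k + 2) * x / (m * q))).card := by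
    refine card_le_card_of_injOn (fun n => n / q) ?_ ?_
    · intro n hn
      rw [mem_coe, boxF, mem_filter] at hn
      obtain ⟨_, _, h2, h3⟩ := hn
      rw [mem_coe, mem_Icc]
      constructor
      · rw [← Nat.div_div_eq_div_mul]
        refine Nat.div_le_div_right ?_
        exact Nat.div_le_of_le_mul h2
      · rw [← Nat.div_div_eq_div_mul]
        refine Nat.div_le_div_right ?_
        rw [Nat.le_div_iff_mul_le hm]
        rw [mul_comm]
        exact h3.le
    · intro n hn n' hn' h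
      rw [mem_coe, boxF, mem_filter] at hn hn'
      have h4 : n / q = n' / q := h
      rw [← Nat.div_add_mod n q, ← Nat.div_add_mod n' q, h4, hn.2.1, hn'.2.1]
  refine h1.trans ?_
  rw [Nat.card_Icc]
  have h2 : (k + 2) * x / (m * q) ≤ k * x / (m * q) + 2 * x / (m * q) + 1 := by
    rw [add_mul]
    have h3 := Nat.add_div (a := k * x) (b := 2 * x) (c := m * q) (Nat.mul_pos hm hq)
    rw [h3]
    split_ifs <;> omega
  generalize (k + 2) * x / (m * q) = u at h2 ⊢
  generalize k * x / (m * q) = v at h2 ⊢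
  generalize 2 * x / (m * q) = w at h2 ⊢
  omega

/-- one scale -/
theorem one_scale {D : Set ℕ} {δ : ℝ} {x m q : ℕ} (hm : 0 < m) (hq : 0 < q) (hx : m * q ≤ x) :
    (seg D δ x + (prog x m q : Set ℕ)).ncard ≤ boxes D δ x m q * (2 * x / (m * q) + 2) := by
  classical
  have hmq : 0 < m * q := Nat.mul_pos hm hq
  have hx0 : 0 < x := lt_of_lt_of_le hmq hx
  have hsegfin : (seg D δ x).Finite :=
    (Set.finite_Iio x).subset (fun a ha => ha.2.2)
  have hbf : ((fun a => (m * a / x, a % q)) '' seg D δ x).Finite := hsegfin.image _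
  have h1 : seg D δ x + (prog x m q : Set ℕ) ⊆
      ((hbf.toFinset.biUnion (fun kr => boxF x m q kr.1 kr.2) : Finset ℕ) : Set ℕ) := by
    rintro _ ⟨a, ha, s, hs, rfl⟩
    rw [mem_coe, prog, mem_image] at hs
    obtain ⟨j, hj, rfl⟩ := hs
    rw [mem_range] at hj
    have hsm : m * (q * j) < x := by
      have h2 : (m * q) * (j + 1) ≤ x := by
        calc (m * q) * (j + 1) ≤ (m * q) * (x / (m * q)) := Nat.mul_le_mul_left _ hj
          _ ≤ x := Nat.mul_div_le _ _
      have h3 : (m * q) * (j + 1) = m * (q * j) + m * q := by ring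
      omega
    have hsx : q * j < x := lt_of_le_of_lt (Nat.le_mul_of_pos_left _ hm) hsm
    rw [mem_coe, mem_biUnion]
    refine ⟨(m * a / x, a % q), ?_, ?_⟩
    · rw [Set.Finite.mem_toFinset]
      exact ⟨a, ha, rfl⟩
    · rw [boxF, mem_filter, mem_range]
      have hax : a < x := ha.2.2
      simp only
      refine ⟨by omega, ?_, ?_, ?_⟩
      · exact Nat.add_mul_mod_self_left a q j
      · calc m * a / x * x ≤ m * a := Nat.div_mul_le_self _ _
          _ ≤ m * (a + q * j) := Nat.mul_le_mul_left _ (Nat.le_add_right _ _)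
      · have h4 : m * a < (m * a / x + 1) * x := by
          rw [add_mul, one_mul]
          exact Nat.lt_div_mul_add hx0
        calc m * (a + q * j) = m * a + m * (q * j) := by ring
          _ < (m * a / x + 1) * x + x := by omega
          _ = (m * a / x + 2) * x := by ring
  have h2 := Set.ncard_le_ncard h1 (Finset.finite_toSet _)
  rw [Set.ncard_coe_finset] at h2
  refine h2.trans ?_
  have h3 := card_biUnion_le_card_mul hbf.toFinset (fun kr => boxF x m q kr.1 kr.2)
    (2 * x / (m * q) + 2) (fun kr _ => card_boxF hm hq kr.1 kr.2)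
  unfold boxes
  rw [Set.ncard_eq_toFinset_card _ hbf]
  exact h3

theorem real_scale {D : Set ℕ} {δ C : ℝ} (hC : 0 ≤ C) {x m q : ℕ} (hm : 0 < m) (hq : 0 < q)
    (hx : 2 * (m * q) ≤ x) (h : (boxes D δ x m q : ℝ) ≤ C * √((m * q : ℕ) : ℝ)) :
    ((seg D δ x + (prog x m q : Set ℕ)).ncard : ℝ) ≤ 8 * C * √((x : ℝ) * (prog x m q).card) := by
  have hmq : 0 < m * q := Nat.mul_pos hm hq
  set Q : ℕ := m * q with hQ
  have hQr : (0 : ℝ) < Q := by exact_mod_cast hmq
  have hxQ : 2 * (Q : ℝ) ≤ x := by exact_mod_cast hx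
  have hxr : (0 : ℝ) < x := by linarith
  have h1 : ((seg D δ x + (prog x m q : Set ℕ)).ncard : ℝ)
      ≤ (boxes D δ x m q : ℝ) * ((2 * x / Q + 2 : ℕ) : ℝ) := by
    exact_mod_cast one_scale (D := D) (δ := δ) hm hq (by omega)
  have h2 : ((2 * x / Q + 2 : ℕ) : ℝ) ≤ 4 * (x / Q) := by
    have h3 : ((2 * x / Q : ℕ) : ℝ) ≤ ((2 * x : ℕ) : ℝ) / Q := Nat.cast_div_le
    have h4 : (2 : ℝ) ≤ x / Q := by
      rw [le_div_iff₀ hQr]
      exact hxQ
    push_cast at h3 ⊢
    have h5 : (2 : ℝ) * x / Q = 2 * (x / Q) := by ring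
    rw [h5] at h3
    linarith
  have h3 : (x : ℝ) / Q / 2 ≤ ((prog x m q).card : ℝ) := by
    rw [card_prog hq]
    have h4 : (x : ℝ) / Q < ((x / Q : ℕ) : ℝ) + 1 := by
      rw [div_lt_iff₀ hQr]
      have h5 : x < (x / Q + 1) * Q := by
        rw [add_mul, one_mul]
        exact Nat.lt_div_mul_add hmq
      exact_mod_cast h5
    have h6 : (2 : ℝ) ≤ x / Q := by
      rw [le_div_iff₀ hQr]
      exact hxQ
    have h7 : (x : ℝ) / Q / 2 ≤ (x : ℝ) / Q - 1 := by linarith
    linarith
  have h4 : √(Q : ℝ) * (x / Q) ≤ 2 * √((x : ℝ) * (prog x m q).card) := by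
    have h5 : √(Q : ℝ) * (x / Q) = √(x * (x / Q)) := by
      symm
      rw [Real.sqrt_eq_iff_mul_self_eq (by positivity) (by positivity)]
      have h6 : √(Q : ℝ) * √(Q : ℝ) = Q := Real.mul_self_sqrt hQr.le
      symm
      calc √(Q : ℝ) * (x / Q) * (√(Q : ℝ) * (x / Q))
          = (√(Q : ℝ) * √(Q : ℝ)) * (x / Q) * (x / Q) := by ring
        _ = x * (x / Q) := by
          rw [h6]
          field_simp
    have h7 : (2 : ℝ) * √((x : ℝ) * (prog x m q).card)
        = √(4 * ((x : ℝ) * (prog x m q).card)) := by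
      rw [Real.sqrt_mul (show (0 : ℝ) ≤ 4 by norm_num), show √(4 : ℝ) = 2 by
        rw [show (4 : ℝ) = 2 ^ 2 by norm_num]
        exact Real.sqrt_sq (by norm_num)]
    rw [h5, h7]
    refine Real.sqrt_le_sqrt ?_
    have h8 : (x : ℝ) * (x / Q / 2) ≤ x * (prog x m q).card := by gcongr
    have h9 : 0 ≤ (x : ℝ) * (x / Q) := by positivity
    linarith
  calc ((seg D δ x + (prog x m q : Set ℕ)).ncard : ℝ)
      ≤ (boxes D δ x m q : ℝ) * ((2 * x / Q + 2 : ℕ) : ℝ) := h1
    _ ≤ (C * √(Q : ℝ)) * (4 * (x / Q)) := by gcongr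
    _ = 4 * C * (√(Q : ℝ) * (x / Q)) := by ring
    _ ≤ 4 * C * (2 * √((x : ℝ) * (prog x m q).card)) := by gcongr
    _ = _ := by ring

/-- a sequence of scales -/
theorem exists_seq {P : ℕ → ℕ → Prop} (h : ∀ T : ℕ, ∃ m q : ℕ, T ≤ m * q ∧ P m q) :
    ∃ f : ℕ → ℕ × ℕ, (∀ i, 0 < (f i).1 * (f i).2) ∧ (∀ i, P (f i).1 (f i).2) ∧
      ∀ i, 32 * ((f i).1 * (f i).2) ≤ (f (i + 1)).1 * (f (i + 1)).2 := by
  choose m q h1 h2 using h
  let T : ℕ → ℕ := fun i => Nat.rec 1 (fun _ t => 32 * (m t * q t) + 1) i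
  have hT : ∀ i, T (i + 1) = 32 * (m (T i) * q (T i)) + 1 := fun i => rfl
  have hT1 : ∀ i, 1 ≤ T i := by
    intro i
    cases i with
    | zero => exact le_rfl
    | succ i => rw [hT]; omega
  refine ⟨fun i => (m (T i), q (T i)), fun i => ?_, fun i => h2 _, fun i => ?_⟩
  · exact lt_of_lt_of_le (hT1 i) (h1 _)
  · have h3 := h1 (T (i + 1))
    rw [hT i] at h3
    simp only
    rw [hT i]
    omega

theorem scales_of_fewBoxes {D : Set ℕ} (h : FewBoxes D) : Scales D := by
  classical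
  intro δ hδ
  obtain ⟨C, hC⟩ := h δ hδ
  refine ⟨8 * max C 0, fun K => ?_⟩
  obtain ⟨f, hf0, hfP, hf⟩ := exists_seq hC
  have hev : ∀ᶠ x : ℕ in atTop, ∀ i ∈ range K,
      (boxes D δ x (f i).1 (f i).2 : ℝ) ≤ C * √(((f i).1 * (f i).2 : ℕ) : ℝ) ∧
        2 * ((f i).1 * (f i).2) ≤ x := by
    rw [Filter.eventually_all_finset]
    intro i _
    exact (hfP i).and (eventually_ge_atTop _)
  filter_upwards [hev] with x hx
  have hpos : ∀ i, 0 < (f i).1 ∧ 0 < (f i).2 := fun i =>
    ⟨Nat.pos_of_mul_pos_right (hf0 i), Nat.pos_of_mul_pos_left (hf0 i)⟩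
  refine ⟨fun i => prog x (f i).1 (f i).2, fun i hi => ?_, fun i hi => ?_, fun i hi => ?_⟩
  · rw [← card_pos, card_prog (hpos i).2]
    refine Nat.div_pos ?_ (hf0 i)
    have := (hx i (mem_range.2 hi)).2
    omega
  · rw [card_prog (hpos i).2, card_prog (hpos (i + 1)).2]
    have h1 := hf i
    have h2 := (hx i (mem_range.2 (by omega))).2
    have h3 := hf0 i
    set Q := (f i).1 * (f i).2 with hQ
    set Q' := (f (i + 1)).1 * (f (i + 1)).2 with hQ'
    have h4 : x / Q' ≤ x / (32 * Q) := Nat.div_le_div_left h1 (by omega)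
    have h5 : x / (32 * Q) = x / Q / 32 := by
      rw [mul_comm, Nat.div_div_eq_div_mul]
    omega
  · have h1 := (hx i (mem_range.2 hi)).1
    have h2 := (hx i (mem_range.2 hi)).2
    refine real_scale (le_max_right C 0) (hpos i).1 (hpos i).2 h2 (h1.trans ?_)
    gcongr
    exact le_max_left _ _

/-- **Joint boxes.** Sets which meet few boxes (interval × residue class) are thin. -/
theorem thin_of_fewBoxes {D : Set ℕ} (h : FewBoxes D) : Thin D :=
  thin_of_scales (scales_of_fewBoxes h)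

end Pool.Agent.Helper5.ETM
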